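import Pool.Agent.Hhelper70.Closed

set_option autoImplicit false
set_option linter.all false

open Set Topology

namespace Pool.Agent.Results.MP_a224d9_lc.ClosedMED

/-- An ideal on `ℕ`: closed under subsets and finite unions, containing every finite set, and not
containing `ℕ`. -/
structure IsIdeal (I : Set (Set ℕ)) : Prop where
  down : ∀ A ∈ I, ∀ B : Set ℕ, B ⊆ A → B ∈ I
  union : ∀ A ∈ I, ∀ B ∈ I, A ∪ B ∈ I
  fin : ∀ A : Set ℕ, A.Finite → A ∈ I
  proper : (univ : Set ℕ) ∉ I

/-- A family of subsets of `ℕ` is Borel when the set of its characteristic functions is a Borel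
subset of the Cantor space `ℕ → Bool` (product topology). -/
def IsBorelFamily (I : Set (Set ℕ)) : Prop :=
  @MeasurableSet (ℕ → Bool) (borel (ℕ → Bool)) {x : ℕ → Bool | {n : ℕ | x n = true} ∈ I}

/-- The set of places where `f` and `g` agree. -/
def agree (f g : ℕ → ℕ) : Set ℕ := {n | f n = g n}

/-- `E` is an `I`-MED: distinct members agree on a set in `I` only, and every function `h` agrees
with some member of `E` on a set outside `I`. -/
def IsMED (I : Set (Set ℕ)) (E : Set (ℕ → ℕ)) : Prop :=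
  (∀ f ∈ E, ∀ g ∈ E, f ≠ g → agree f g ∈ I) ∧ ∀ h : ℕ → ℕ, ∃ f ∈ E, agree f h ∉ I

/-- For every Borel ideal `I` on `ℕ` there is an `I`-MED which is a closed subset of Baire
space. -/
theorem result (I : Set (Set ℕ)) (hI : IsIdeal I) (hB : IsBorelFamily I) :
    ∃ E : Set (ℕ → ℕ), IsClosed E ∧ IsMED I E := by
  have hI' : Pool.Agent.Hhelper70.IsIdeal I := ⟨hI.down, hI.union, hI.fin, hI.proper⟩
  have hm : MeasurableSet {x : ℕ → Bool | Pool.Agent.Hhelper70.toS x ∈ I} := by
    have hb : (MeasurableSpace.pi : MeasurableSpace (ℕ → Bool)) = borel (ℕ → Bool) :=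
      BorelSpace.measurable_eq
    have hB' := hB
    unfold IsBorelFamily at hB'
    rw [← hb] at hB'
    exact hB'
  obtain ⟨E, h1, h2, h3⟩ := Pool.Agent.Hhelper70.closed_family hI' hm
  exact ⟨E, h1, h2, h3⟩

end Pool.Agent.Results.MP_a224d9_lc.ClosedMED
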